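import Pool.Agent.HpD.Link

/-!
# Halving partitions and triangles
-/

namespace Pool.Agent.HpD

open Finset Classical SmH

variable {n : ℕ}

/-- The points of a triple given as (middle, first, last). -/
def pts (c : Fin n × Fin n × Fin n) : Fin 3 → Fin n := ![c.1, c.2.1, c.2.2]

/-- The set belonging to a triple and a subset of it. -/
noncomputable def rec' (x : Fin n × Fin 3 → ℝ) (c : Fin n × Fin n × Fin n)
    (S : Finset (Fin 3)) : Finset (Fin n) :=
  (univ.filter fun r => 0 < dt x c.1 c.2.1 c.2.2 r) ∪ S.image (pts c)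

theorem sort3 (f : Fin n → ℝ) {i j l : Fin n} (h1 : f i ≠ f j) (h2 : f i ≠ f l) (h3 : f j ≠ f l) :
    ∃ c : Fin n × Fin n × Fin n, f c.2.1 < f c.1 ∧ f c.1 < f c.2.2 ∧
      ({c.1, c.2.1, c.2.2} : Finset (Fin n)) = {i, j, l} := by
  rcases lt_or_gt_of_ne h1 with h1 | h1 <;> rcases lt_or_gt_of_ne h2 with h2 | h2 <;>
    rcases lt_or_gt_of_ne h3 with h3 | h3
  · exact ⟨(j, i, l), h1, h3, by ext r; simp only [mem_insert, mem_singleton]; tauto⟩
  · exact ⟨(l, i, j), h2, h3, by ext r; simp only [mem_insert, mem_singleton]; tauto⟩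
  · exact absurd (h1.trans h3) (lt_asymm h2)
  · exact ⟨(i, l, j), h2, h1, by ext r; simp only [mem_insert, mem_singleton]; tauto⟩
  · exact ⟨(i, j, l), h1, h2, rfl⟩
  · exact absurd (h3.trans h1) (lt_asymm h2)
  · exact ⟨(l, j, i), h3, h2, by ext r; simp only [mem_insert, mem_singleton]; tauto⟩
  · exact ⟨(j, l, i), h3, h1, by ext r; simp only [mem_insert, mem_singleton]; tauto⟩

/-- the side of the plane through three points, seen by a functional and by the determinant -/
theorem side {x : Fin n × Fin 3 → ℝ} (hx : GenPos x) (hn : 4 ≤ n) {a b c : Fin n} (hab : b ≠ a)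
    (hac : c ≠ a) (hbc : b ≠ c) (u : Fin 3 → ℝ) (t : ℝ) (ha : ev u x a = t) (hb : ev u x b = t)
    (hc : ev u x c = t) (hu : ∀ r, r ≠ a → r ≠ b → r ≠ c → ev u x r ≠ t) :
    ∃ κ : ℝ, κ ≠ 0 ∧ ∀ r, dt x a b c r = κ * (ev u x r - t) := by
  obtain ⟨d, hda, hdb, hdc⟩ := exists_fourth hn a b c
  have h1 : dot u (df x a b) = 0 := by rw [dot_df, ha, hb, sub_self]
  have h2 : dot u (df x a c) = 0 := by rw [dot_df, ha, hc, sub_self]
  have h3 : dot u (df x a d) ≠ 0 := by
    rw [dot_df, ha]
    exact sub_ne_zero.2 (hu d hda hdb hdc)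
  have h4 := dt_ne hx hab.symm hac.symm hda.symm hbc hdb.symm hdc.symm
  refine ⟨dt x a b c d / dot u (df x a d), div_ne_zero h4 h3, fun r => ?_⟩
  have h5 := four u (df x a b) (df x a d) (df x a c) (df x a r)
  rw [h1, h2] at h5
  have h6 : det3 (df x a b) (df x a d) (df x a c) = -dt x a b c d := by
    unfold dt det3
    ring
  rw [h6] at h5
  have h7 : dot u (df x a r) = ev u x r - t := by rw [dot_df, ha]
  rw [← h7]
  have h8 : dt x a b c r = det3 (df x a b) (df x a c) (df x a r) := rfl
  rw [div_mul_eq_mul_div, eq_div_iff h3, h8]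
  linear_combination -h5

/-- every halving partition comes from a triple -/
theorem exists_triple {x : Fin n × Fin 3 → ℝ} (hx : GenPos x) (hn : 4 ≤ n) (z : Fin 3 → ℝ)
    (hz : ∀ p q, p ≠ q → ev z x p ≠ ev z x q) {m : ℕ} (hm : 2 * m = n) {A : Finset (Fin n)}
    (hA : 2 * A.card = n) (hs : Sep x A) :
    ∃ (S : Finset (Fin 3)) (c : Fin n × Fin n × Fin n), c ∈ tri x z (m - S.card) ∧
      (({A, Aᶜ} : Finset (Finset (Fin n))) = {rec' x c S, (rec' x c S)ᶜ}) := by
  have hAm : A.card = m := by omega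
  have hAc : Aᶜ.card = m := by
    rw [card_compl, Fintype.card_fin]
    omega
  obtain ⟨u, t, hW, hT⟩ := exists_vertex hn x hx A (card_pos.1 (by omega))
    (by
      obtain ⟨i, hi⟩ := card_pos.1 (show 0 < Aᶜ.card by omega)
      exact ⟨i, by simpa using hi⟩) hs
  obtain ⟨i, j, l, hij, hil, hjl, hT3⟩ := card_eq_three.1 hT
  obtain ⟨c, hc1, hc2, hc3⟩ := sort3 (ev z x) (hz i j hij) (hz i l hil) (hz j l hjl)
  obtain ⟨b, p, q⟩ := c
  change ev z x p < ev z x b at hc1
  change ev z x b < ev z x q at hc2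
  change ({b, p, q} : Finset (Fin n)) = {i, j, l} at hc3
  rw [← hc3] at hT3
  have hpb : p ≠ b := by
    rintro rfl
    exact lt_irrefl _ hc1
  have hqb : q ≠ b := by
    rintro rfl
    exact lt_irrefl _ hc2
  have hpq : p ≠ q := by
    rintro rfl
    exact lt_asymm hc1 hc2
  have hmem : ∀ r, ev u x r = t ↔ (r = b ∨ r = p ∨ r = q) := by
    intro r
    rw [← mem_tight, hT3]
    simp
  obtain ⟨κ, hκ, hside⟩ := side hx hn hpb hqb hpq u t ((hmem b).2 (Or.inl rfl))
    ((hmem p).2 (Or.inr (Or.inl rfl))) ((hmem q).2 (Or.inr (Or.inr rfl)))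
    (fun r h1 h2 h3 h4 => by
      rcases (hmem r).1 h4 with h | h | h
      · exact h1 h
      · exact h2 h
      · exact h3 h)
  have hinj : Function.Injective (pts (b, p, q)) := by
    intro s s' h
    fin_cases s <;> fin_cases s' <;> simp [pts] at h ⊢
    · exact hpb h.symm
    · exact hqb h.symm
    · exact hpb h
    · exact hpq h
    · exact hqb h
    · exact hpq h.symm
  have hrange : ∀ r, (∃ s, pts (b, p, q) s = r) ↔ (r = b ∨ r = p ∨ r = q) := by
    intro r
    constructor
    · rintro ⟨s, rfl⟩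
      fin_cases s <;> simp [pts]
    · rintro (h | h | h)
      · exact ⟨0, h.symm⟩
      · exact ⟨1, h.symm⟩
      · exact ⟨2, h.symm⟩
  -- the right one of the two sets
  have key : ∀ A' : Finset (Fin n), A'.card = m →
      (∀ r, ev u x r ≠ t → (r ∈ A' ↔ 0 < dt x b p q r)) →
      ∃ S : Finset (Fin 3), (b, p, q) ∈ tri x z (m - S.card) ∧ A' = rec' x (b, p, q) S := by
    intro A' hcard h
    set S : Finset (Fin 3) := univ.filter fun s => pts (b, p, q) s ∈ A' with hS
    have h0 : ∀ r, 0 < dt x b p q r → ev u x r ≠ t := by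
      intro r h1 h2
      rw [hside, h2, sub_self, mul_zero] at h1
      exact lt_irrefl _ h1
    have hA' : A' = rec' x (b, p, q) S := by
      ext r
      unfold rec'
      rw [mem_union, mem_filter, mem_image]
      constructor
      · intro hr
        by_cases h1 : ev u x r = t
        · right
          obtain ⟨s, hs⟩ := (hrange r).2 ((hmem r).1 h1)
          exact ⟨s, mem_filter.2 ⟨mem_univ _, by rw [hs]; exact hr⟩, hs⟩
        · left
          exact ⟨mem_univ _, (h r h1).1 hr⟩
      · rintro (⟨_, h1⟩ | ⟨s, h1, rfl⟩)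
        · exact (h r (h0 r h1)).2 h1
        · exact (mem_filter.1 h1).2
    have hdisj : Disjoint (univ.filter fun r => 0 < dt x b p q r) (S.image (pts (b, p, q))) := by
      rw [disjoint_left]
      intro r h1 h2
      obtain ⟨s, _, h3⟩ := mem_image.1 h2
      exact h0 r (mem_filter.1 h1).2 ((hmem r).2 ((hrange r).1 ⟨s, h3⟩))
    have hcount : A'.card = (univ.filter fun r => 0 < dt x b p q r).card + S.card := by
      rw [hA']
      unfold rec'
      rw [card_union_of_disjoint hdisj, card_image_of_injective _ hinj]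
    refine ⟨S, ?_, hA'⟩
    rw [tri, mem_filter]
    refine ⟨mem_univ _, hc1, hc2, Or.inl ?_⟩
    change (univ.filter fun r => 0 < dt x b p q r).card = m - S.card
    omega
  rcases lt_or_gt_of_ne hκ with h | h
  · obtain ⟨S, h1, h2⟩ := key Aᶜ hAc (by
      intro r hr
      rw [mem_compl, hside]
      constructor
      · intro h3
        have h4 := hW.2.2 r h3
        have h5 : ev u x r - t < 0 := by
          rcases lt_or_eq_of_le h4 with h6 | h6
          · linarith
          · exact absurd h6 hr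
        exact mul_pos_of_neg_of_neg h h5
      · intro h3 h4
        have h5 := hW.2.1 r h4
        have : κ * (ev u x r - t) ≤ 0 := mul_nonpos_of_nonpos_of_nonneg h.le (by linarith)
        linarith)
    refine ⟨S, (b, p, q), h1, ?_⟩
    rw [← h2, compl_compl, pair_comm]
  · obtain ⟨S, h1, h2⟩ := key A hAm (by
      intro r hr
      rw [hside]
      constructor
      · intro h3
        have h4 := hW.2.1 r h3
        have h5 : 0 < ev u x r - t := by
          rcases lt_or_eq_of_le h4 with h6 | h6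
          · linarith
          · exact absurd h6.symm hr
        exact mul_pos h h5
      · intro h3
        by_contra h4
        have h5 := hW.2.2 r h4
        have : κ * (ev u x r - t) ≤ 0 := mul_nonpos_of_nonneg_of_nonpos h.le (by linarith)
        linarith)
    exact ⟨S, (b, p, q), h1, by rw [← h2]⟩

/-- the number of halving partitions is at most eight times a bound for the triples -/
theorem halvings_le_of {x : Fin n × Fin 3 → ℝ} (hx : GenPos x) (hn : 4 ≤ n) (z : Fin 3 → ℝ)
    (hz : ∀ p q, p ≠ q → ev z x p ≠ ev z x q) (B : ℕ) (hB : ∀ k, (tri x z k).card ≤ B) :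
    Set.ncard {P : Finset (Finset (Fin n)) |
      ∃ A : Finset (Fin n), 2 * A.card = n ∧ Sep x A ∧ P = {A, Aᶜ}} ≤ 8 * B := by
  by_cases he : ∃ m, 2 * m = n
  · obtain ⟨m, hm⟩ := he
    let U : Finset (Finset (Finset (Fin n))) := (univ : Finset (Finset (Fin 3))).biUnion fun S =>
      (tri x z (m - S.card)).image fun c => {rec' x c S, (rec' x c S)ᶜ}
    have h1 : {P : Finset (Finset (Fin n)) |
        ∃ A : Finset (Fin n), 2 * A.card = n ∧ Sep x A ∧ P = {A, Aᶜ}} ⊆ (U : Set _) := by
      rintro P ⟨A, hA, hs, rfl⟩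
      obtain ⟨S, c, h2, h3⟩ := exists_triple hx hn z hz hm hA hs
      rw [mem_coe, mem_biUnion]
      exact ⟨S, mem_univ _, mem_image.2 ⟨c, h2, h3.symm⟩⟩
    calc _ ≤ (U : Set _).ncard := Set.ncard_le_ncard h1 (finite_toSet U)
      _ = U.card := Set.ncard_coe_finset U
      _ ≤ ∑ S : Finset (Fin 3), ((tri x z (m - S.card)).image fun c =>
          ({rec' x c S, (rec' x c S)ᶜ} : Finset (Finset (Fin n)))).card := card_biUnion_le
      _ ≤ ∑ _S : Finset (Fin 3), B := sum_le_sum fun S _ => card_image_le.trans (hB _)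
      _ = 8 * B := by simp
  · have h1 : {P : Finset (Finset (Fin n)) |
        ∃ A : Finset (Fin n), 2 * A.card = n ∧ Sep x A ∧ P = {A, Aᶜ}} = ∅ := by
      ext P
      simp only [Set.mem_ofPred_eq, Set.mem_empty_iff_false, iff_false]
      rintro ⟨A, hA, _⟩
      exact he ⟨_, hA⟩
    rw [h1]
    simp

end Pool.Agent.HpD
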