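import Pool.Agent.HpD.Walk
import Pool.Agent.SmH.Vertex

/-!
# Local antipodality at an edge

For two points `b, p` of a configuration in general position and a plane through both which
contains no other point, the triangles `b p q` with exactly `k` points on one side lie almost
equally often on the two sides of the plane.
-/

namespace Pool.Agent.HpD

open Finset Classical SmH

variable {n : ℕ}

/-- The vector from the point `b` to the point `p`. -/
def df (x : Fin n × Fin 3 → ℝ) (b p : Fin n) : Fin 3 → ℝ := fun c => x (p, c) - x (b, c)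

/-- The determinant of three vectors. -/
def det3 (P Q R : Fin 3 → ℝ) : ℝ :=
  P 0 * (Q 1 * R 2 - Q 2 * R 1) - P 1 * (Q 0 * R 2 - Q 2 * R 0) + P 2 * (Q 0 * R 1 - Q 1 * R 0)

/-- The scalar product. -/
def dot (u P : Fin 3 → ℝ) : ℝ := u 0 * P 0 + u 1 * P 1 + u 2 * P 2

/-- The orientation determinant of four points. -/
def dt (x : Fin n × Fin 3 → ℝ) (b p q r : Fin n) : ℝ := det3 (df x b p) (df x b q) (df x b r)

/-- The plane through `b, p, q` has exactly `k` points on one of its sides. -/
def Ty (x : Fin n × Fin 3 → ℝ) (k : ℕ) (b p q : Fin n) : Prop :=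
  (univ.filter fun r => 0 < dt x b p q r).card = k ∨ (univ.filter fun r => dt x b p q r < 0).card = k

theorem four (u P V Q R : Fin 3 → ℝ) :
    dot u P * det3 V Q R - dot u V * det3 P Q R + dot u Q * det3 P V R - dot u R * det3 P V Q = 0 := by
  unfold dot det3
  ring

theorem dot_df (x : Fin n × Fin 3 → ℝ) (u : Fin 3 → ℝ) (b p : Fin n) :
    dot u (df x b p) = ev u x p - ev u x b := by
  unfold dot df ev
  rw [Fin.sum_univ_three, Fin.sum_univ_three]
  ring

theorem det3_zero {P Q R : Fin 3 → ℝ} (h : det3 P Q R = 0) :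
    ∃ u : Fin 3 → ℝ, u ≠ 0 ∧ dot u P = 0 ∧ dot u Q = 0 ∧ dot u R = 0 := by
  let M : Matrix (Fin 3) (Fin 3) ℝ := !![P 0, P 1, P 2; Q 0, Q 1, Q 2; R 0, R 1, R 2]
  have hM : M.det = 0 := by
    rw [Matrix.det_fin_three]
    simp only [M, Matrix.of_apply, Matrix.cons_val', Matrix.cons_val_zero, Matrix.cons_val_one,
      Matrix.cons_val]
    unfold det3 at h
    linear_combination h
  obtain ⟨v, hv, h1⟩ := Matrix.exists_mulVec_eq_zero_iff.2 hM
  refine ⟨v, hv, ?_, ?_, ?_⟩
  · have := congrFun h1 0
    simp only [Matrix.mulVec, dotProduct, Fin.sum_univ_three, M, Matrix.of_apply,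
      Matrix.cons_val', Matrix.cons_val_zero, Matrix.cons_val_one, Matrix.cons_val,
      Pi.zero_apply] at this
    unfold dot
    linear_combination this
  · have := congrFun h1 1
    simp only [Matrix.mulVec, dotProduct, Fin.sum_univ_three, M, Matrix.of_apply,
      Matrix.cons_val', Matrix.cons_val_zero, Matrix.cons_val_one, Matrix.cons_val,
      Pi.zero_apply] at this
    unfold dot
    linear_combination this
  · have := congrFun h1 2
    simp only [Matrix.mulVec, dotProduct, Fin.sum_univ_three, M, Matrix.of_apply,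
      Matrix.cons_val', Matrix.cons_val_zero, Matrix.cons_val_one, Matrix.cons_val,
      Pi.zero_apply] at this
    unfold dot
    linear_combination this

theorem dt_ne {x : Fin n × Fin 3 → ℝ} (hx : GenPos x) {b p q r : Fin n} (h1 : b ≠ p) (h2 : b ≠ q)
    (h3 : b ≠ r) (h4 : p ≠ q) (h5 : p ≠ r) (h6 : q ≠ r) : dt x b p q r ≠ 0 := by
  intro h
  obtain ⟨u, hu, e1, e2, e3⟩ := det3_zero h
  rw [dot_df] at e1 e2 e3
  have h7 := hx u (ev u x b) hu {b, p, q, r} (by
    intro i hi
    simp only [mem_insert, mem_singleton] at hi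
    rcases hi with rfl | rfl | rfl | rfl
    · rfl
    · linarith
    · linarith
    · linarith)
  have h8 : ({b, p, q, r} : Finset (Fin n)).card = 4 := by
    rw [card_insert_of_notMem (by simp [h1, h2, h3]), card_insert_of_notMem (by simp [h4, h5]),
      card_insert_of_notMem (by simp [h6]), card_singleton]
  omega

theorem dt_left (x : Fin n × Fin 3 → ℝ) (b p q : Fin n) : dt x b p q b = 0 := by
  unfold dt det3 df
  ring

theorem dt_mid (x : Fin n × Fin 3 → ℝ) (b p q : Fin n) : dt x b p q p = 0 := by
  unfold dt det3 df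
  ring

theorem dt_right (x : Fin n × Fin 3 → ℝ) (b p q : Fin n) : dt x b p q q = 0 := by
  unfold dt det3 df
  ring

/-- The other points. -/
def others (b p : Fin n) : Finset (Fin n) := univ.filter fun q => q ≠ b ∧ q ≠ p

theorem alt {x : Fin n × Fin 3 → ℝ} (hx : GenPos x) {b p : Fin n} (hpb : p ≠ b) (u : Fin 3 → ℝ)
    (hu : dot u (df x b p) = 0) (hne : ∀ q, q ≠ b → q ≠ p → dot u (df x b q) ≠ 0) (k : ℕ) :
    (((others b p).filter fun q => 0 < dot u (df x b q) ∧ Ty x k b p q).card ≤
      ((others b p).filter fun q => ¬ 0 < dot u (df x b q) ∧ Ty x k b p q).card + 2) ∧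
    (((others b p).filter fun q => ¬ 0 < dot u (df x b q) ∧ Ty x k b p q).card ≤
      ((others b p).filter fun q => 0 < dot u (df x b q) ∧ Ty x k b p q).card + 2) := by
  rcases (others b p).eq_empty_or_nonempty with hQ | ⟨q0, hq0⟩
  · rw [hQ]
    simp
  set Q := others b p with hQdef
  have hQ : ∀ q, q ∈ Q ↔ q ≠ b ∧ q ≠ p := fun q => by simp [hQdef, others]
  have hz0 : dot u (df x b q0) ≠ 0 := hne q0 ((hQ q0).1 hq0).1 ((hQ q0).1 hq0).2
  let V : Fin 3 → ℝ := fun c => df x b q0 c / dot u (df x b q0)
  have hV : dot u V = 1 := by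
    have : dot u V = dot u (df x b q0) / dot u (df x b q0) := by
      simp only [V]
      unfold dot
      ring
    rw [this, div_self hz0]
  let s : Fin n → ℝ := fun q => det3 (df x b p) V (df x b q) / dot u (df x b q)
  let e : Fin n → Prop := fun q => 0 < dot u (df x b q)
  have hD : ∀ q ∈ Q, ∀ r ∈ Q, dt x b p q r =
      dot u (df x b q) * dot u (df x b r) * (s r - s q) := by
    intro q hq r hr
    have h1 := hne q ((hQ q).1 hq).1 ((hQ q).1 hq).2
    have h2 := hne r ((hQ r).1 hr).1 ((hQ r).1 hr).2
    have h3 := four u (df x b p) V (df x b q) (df x b r)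
    rw [hu, hV] at h3
    have h4 : s q * dot u (df x b q) = det3 (df x b p) V (df x b q) := div_mul_cancel₀ _ h1
    have h5 : s r * dot u (df x b r) = det3 (df x b p) V (df x b r) := div_mul_cancel₀ _ h2
    unfold dt
    rw [← h4, ← h5] at h3
    linear_combination -h3
  have hs : Set.InjOn s Q := by
    intro q hq r hr h
    by_contra hqr
    have h1 := hD q hq r hr
    rw [h, sub_self, mul_zero] at h1
    exact dt_ne hx hpb.symm (Ne.symm ((hQ q).1 hq).1) (Ne.symm ((hQ r).1 hr).1)
      (Ne.symm ((hQ q).1 hq).2) (Ne.symm ((hQ r).1 hr).2) hqr h1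
  have hout : ∀ q r, r ∉ Q → dt x b p q r = 0 := by
    intro q r hr
    rw [hQ, not_and_or, not_not, not_not] at hr
    rcases hr with rfl | rfl
    · exact dt_left _ _ _ _
    · exact dt_mid _ _ _ _
  have hsum : ∀ q ∈ Q, (univ.filter fun r => 0 < dt x b p q r).card +
      (univ.filter fun r => dt x b p q r < 0).card = Q.card - 1 := by
    intro q hq
    rw [← card_union_of_disjoint, ← card_erase_of_mem hq]
    · congr 1
      ext r
      simp only [mem_union, mem_filter, mem_univ, true_and, mem_erase]
      constructor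
      · intro h
        have h1 : dt x b p q r ≠ 0 := by
          rcases h with h | h
          · exact h.ne'
          · exact h.ne
        refine ⟨?_, ?_⟩
        · rintro rfl
          exact h1 (dt_right _ _ _ _)
        · by_contra h2
          exact h1 (hout q r h2)
      · rintro ⟨h1, h2⟩
        have h3 : dt x b p q r ≠ 0 := dt_ne hx hpb.symm (Ne.symm ((hQ q).1 hq).1)
          (Ne.symm ((hQ r).1 h2).1) (Ne.symm ((hQ q).1 hq).2) (Ne.symm ((hQ r).1 h2).2)
          (Ne.symm h1)
        rcases lt_or_gt_of_ne h3 with h4 | h4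
        · exact Or.inr h4
        · exact Or.inl h4
    · rw [disjoint_left]
      intro r h1 h2
      rw [mem_filter] at h1 h2
      exact lt_asymm h1.2 h2.2
  have hunion : ∀ q, mu Q s e q = (univ.filter fun r => r ∈ Q ∧ (s q < s r ∧ e r ∨
      s r < s q ∧ ¬ e r)).card := by
    intro q
    unfold mu
    rw [← card_union_of_disjoint]
    · congr 1
      ext r
      simp only [mem_union, mem_filter, mem_univ, true_and]
      tauto
    · rw [disjoint_left]
      intro r h1 h2
      rw [mem_filter] at h1 h2
      exact h2.2.2 h1.2.2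
  have hpos : ∀ q ∈ Q, e q → (univ.filter fun r => 0 < dt x b p q r).card = mu Q s e q := by
    intro q hq he
    rw [hunion]
    congr 1
    ext r
    simp only [mem_filter, mem_univ, true_and]
    have hq' : 0 < dot u (df x b q) := he
    constructor
    · intro h
      have hr : r ∈ Q := by
        by_contra h2
        rw [hout q r h2] at h
        exact lt_irrefl _ h
      refine ⟨hr, ?_⟩
      rw [hD q hq r hr] at h
      by_cases her : e r
      · left
        have hr' : 0 < dot u (df x b r) := her
        refine ⟨?_, her⟩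
        have := (mul_pos_iff_of_pos_left (mul_pos hq' hr')).1 h
        linarith
      · right
        have hr' : dot u (df x b r) < 0 :=
          lt_of_le_of_ne (not_lt.1 her) (hne r ((hQ r).1 hr).1 ((hQ r).1 hr).2)
        refine ⟨?_, her⟩
        by_contra h3
        have h4 : dot u (df x b q) * dot u (df x b r) * (s r - s q) ≤ 0 :=
          mul_nonpos_of_nonpos_of_nonneg (mul_neg_of_pos_of_neg hq' hr').le (by linarith)
        linarith
    · rintro ⟨hr, h⟩
      rw [hD q hq r hr]
      rcases h with ⟨h1, h2⟩ | ⟨h1, h2⟩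
      · have hr' : 0 < dot u (df x b r) := h2
        exact mul_pos (mul_pos hq' hr') (by linarith)
      · have hr' : dot u (df x b r) < 0 :=
          lt_of_le_of_ne (not_lt.1 h2) (hne r ((hQ r).1 hr).1 ((hQ r).1 hr).2)
        exact mul_pos_of_neg_of_neg (mul_neg_of_pos_of_neg hq' hr') (by linarith)
  have hneg : ∀ q ∈ Q, ¬ e q → (univ.filter fun r => dt x b p q r < 0).card = mu Q s e q := by
    intro q hq he
    rw [hunion]
    congr 1
    ext r
    simp only [mem_filter, mem_univ, true_and]
    have hq' : dot u (df x b q) < 0 :=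
      lt_of_le_of_ne (not_lt.1 he) (hne q ((hQ q).1 hq).1 ((hQ q).1 hq).2)
    constructor
    · intro h
      have hr : r ∈ Q := by
        by_contra h2
        rw [hout q r h2] at h
        exact lt_irrefl _ h
      refine ⟨hr, ?_⟩
      rw [hD q hq r hr] at h
      by_cases her : e r
      · left
        have hr' : 0 < dot u (df x b r) := her
        refine ⟨?_, her⟩
        by_contra h3
        have h4 : 0 ≤ dot u (df x b q) * dot u (df x b r) * (s r - s q) :=
          mul_nonneg_of_nonpos_of_nonpos (mul_neg_of_neg_of_pos hq' hr').le (by linarith)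
        linarith
      · right
        have hr' : dot u (df x b r) < 0 :=
          lt_of_le_of_ne (not_lt.1 her) (hne r ((hQ r).1 hr).1 ((hQ r).1 hr).2)
        refine ⟨?_, her⟩
        by_contra h3
        have h4 : 0 ≤ dot u (df x b q) * dot u (df x b r) * (s r - s q) :=
          mul_nonneg (mul_pos_of_neg_of_neg hq' hr').le (by linarith)
        linarith
    · rintro ⟨hr, h⟩
      rw [hD q hq r hr]
      rcases h with ⟨h1, h2⟩ | ⟨h1, h2⟩
      · have hr' : 0 < dot u (df x b r) := h2
        exact mul_neg_of_neg_of_pos (mul_neg_of_neg_of_pos hq' hr') (by linarith)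
      · have hr' : dot u (df x b r) < 0 :=
          lt_of_le_of_ne (not_lt.1 h2) (hne r ((hQ r).1 hr).1 ((hQ r).1 hr).2)
        exact mul_neg_of_pos_of_neg (mul_pos_of_neg_of_neg hq' hr') (by linarith)
  have hTy : ∀ q ∈ Q, (Ty x k b p q ↔ (mu Q s e q = k ∨ Q.card - 1 - mu Q s e q = k)) := by
    intro q hq
    have h1 := hsum q hq
    have h2 := mu_lt (s := s) e hq
    by_cases he : e q
    · have h3 := hpos q hq he
      unfold Ty
      constructor
      · rintro (h | h)
        · left; omega
        · right; omega
      · rintro (h | h)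
        · left; omega
        · right; omega
    · have h3 := hneg q hq he
      unfold Ty
      constructor
      · rintro (h | h)
        · right; omega
        · left; omega
      · rintro (h | h)
        · right; omega
        · left; omega
  have h1 : (Q.filter fun q => 0 < dot u (df x b q) ∧ Ty x k b p q) =
      Q.filter fun q => e q ∧ (mu Q s e q = k ∨ Q.card - 1 - mu Q s e q = k) := by
    apply filter_congr
    intro q hq
    rw [hTy q hq]
  have h2 : (Q.filter fun q => ¬ 0 < dot u (df x b q) ∧ Ty x k b p q) =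
      Q.filter fun q => ¬ e q ∧ (mu Q s e q = k ∨ Q.card - 1 - mu Q s e q = k) := by
    apply filter_congr
    intro q hq
    rw [hTy q hq]
  rw [h1, h2]
  exact walk_two hs e k

end Pool.Agent.HpD
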