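import Mathlib

/-!
# Rotating a plane about a line, abstractly

`z` and `w` are the values of two functionals at the points of `Q`; the plane rotates from `z = 0`
to `w = 0`. If each passage of a point changes the number of separated related pairs by at most
two, then the number of related pairs separated by `z` is at most the number of points with
`w ≥ 0` times the number of points, plus two for each point.
-/

namespace Pool.Agent.HpD

open Finset Classical

variable {ι : Type*}

/-- The number of pairs related by `T` and separated by the signs `σ`. -/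
noncomputable def sep (Q : Finset ι) (T : ι → ι → Prop) (σ : ι → Prop) : ℕ :=
  ((Q ×ˢ Q).filter fun c => T c.1 c.2 ∧ ¬ σ c.1 ∧ σ c.2).card

/-- The pairs containing a given point. -/
noncomputable def sepAt (Q : Finset ι) (T : ι → ι → Prop) (σ : ι → Prop) (a : ι) : ℕ :=
  ((Q.erase a).filter fun q => T a q ∧ (σ a ↔ ¬ σ q)).card

theorem sep_split (Q : Finset ι) (T : ι → ι → Prop) (hT : ∀ p q, T p q → T q p) (σ : ι → Prop)
    {a : ι} (ha : a ∈ Q) : sep Q T σ = sep (Q.erase a) T σ + sepAt Q T σ a := by
  unfold sep sepAt
  by_cases hσ : σ a
  · have h1 : ((Q ×ˢ Q).filter fun c => T c.1 c.2 ∧ ¬ σ c.1 ∧ σ c.2) =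
        (((Q.erase a) ×ˢ (Q.erase a)).filter fun c => T c.1 c.2 ∧ ¬ σ c.1 ∧ σ c.2) ∪
        ((Q.erase a).filter fun q => T a q ∧ (σ a ↔ ¬ σ q)).image (fun q => (q, a)) := by
      ext ⟨c, d⟩
      simp only [mem_filter, mem_product, mem_union, mem_erase, mem_image, Prod.mk.injEq]
      constructor
      · rintro ⟨⟨h1, h2⟩, h3, h4, h5⟩
        have hca : c ≠ a := by
          rintro rfl
          exact h4 hσ
        by_cases hda : d = a
        · right
          subst hda
          exact ⟨c, ⟨⟨hca, h1⟩, hT _ _ h3, by tauto⟩, rfl, rfl⟩
        · left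
          exact ⟨⟨⟨hca, h1⟩, hda, h2⟩, h3, h4, h5⟩
      · rintro (⟨⟨⟨h0, h1⟩, h2, h3⟩, h4, h5, h6⟩ | ⟨q, ⟨⟨h1, h2⟩, h3, h4⟩, rfl, rfl⟩)
        · exact ⟨⟨h1, h3⟩, h4, h5, h6⟩
        · exact ⟨⟨h2, ha⟩, hT _ _ h3, h4.1 hσ, hσ⟩
    rw [h1, card_union_of_disjoint, card_image_of_injective]
    · intro q q' h
      exact (Prod.mk.inj h).1
    · rw [disjoint_left]
      rintro ⟨c, d⟩ h2 h3
      simp only [mem_filter, mem_product, mem_erase, mem_image, Prod.mk.injEq] at h2 h3
      obtain ⟨q, _, _, h5⟩ := h3
      exact h2.1.2.1 h5.symm
  · have h1 : ((Q ×ˢ Q).filter fun c => T c.1 c.2 ∧ ¬ σ c.1 ∧ σ c.2) =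
        (((Q.erase a) ×ˢ (Q.erase a)).filter fun c => T c.1 c.2 ∧ ¬ σ c.1 ∧ σ c.2) ∪
        ((Q.erase a).filter fun q => T a q ∧ (σ a ↔ ¬ σ q)).image (fun q => (a, q)) := by
      ext ⟨c, d⟩
      simp only [mem_filter, mem_product, mem_union, mem_erase, mem_image, Prod.mk.injEq]
      constructor
      · rintro ⟨⟨h1, h2⟩, h3, h4, h5⟩
        have hda : d ≠ a := by
          rintro rfl
          exact hσ h5
        by_cases hca : c = a
        · right
          subst hca
          exact ⟨d, ⟨⟨hda, h2⟩, h3, by tauto⟩, rfl, rfl⟩
        · left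
          exact ⟨⟨⟨hca, h1⟩, hda, h2⟩, h3, h4, h5⟩
      · rintro (⟨⟨⟨h0, h1⟩, h2, h3⟩, h4, h5, h6⟩ | ⟨q, ⟨⟨h1, h2⟩, h3, h4⟩, rfl, rfl⟩)
        · exact ⟨⟨h1, h3⟩, h4, h5, h6⟩
        · refine ⟨⟨ha, h2⟩, h3, hσ, ?_⟩
          by_contra h5
          exact hσ (h4.2 h5)
    rw [h1, card_union_of_disjoint, card_image_of_injective]
    · intro q q' h
      exact (Prod.mk.inj h).2
    · rw [disjoint_left]
      rintro ⟨c, d⟩ h2 h3
      simp only [mem_filter, mem_product, mem_erase, mem_image, Prod.mk.injEq] at h2 h3
      obtain ⟨q, _, h5, _⟩ := h3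
      exact h2.1.1.1 h5.symm

theorem pr1 {A B C : Prop} (h : ¬ A) : (C ∧ (A ↔ ¬ B)) ↔ (B ∧ C) := by
  by_cases hB : B <;> simp [h, hB]

theorem pr2 {A B C : Prop} (h : A) : (C ∧ (A ↔ ¬ B)) ↔ (¬ B ∧ C) := by
  by_cases hB : B <;> simp [h, hB]

/-- the value of the rotating functional -/
noncomputable def rot (z w : ι → ℝ) (t : ℝ) (q : ι) : ℝ := (1 - t) * z q + t * w q

/-- the time at which a point is passed -/
noncomputable def tm (z w : ι → ℝ) (q : ι) : ℝ := z q / (z q - w q)

/-- the signs after the points of `P` have been passed -/
def sg (z w : ι → ℝ) (P : Finset ι) (q : ι) : Prop := (q ∈ P ∧ 0 < w q) ∨ (q ∉ P ∧ 0 < z q)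

theorem tm_mem {z w : ι → ℝ} {q : ι} (h : z q * w q < 0) : 0 < tm z w q ∧ tm z w q < 1 := by
  unfold tm
  rcases lt_trichotomy (z q) 0 with h1 | h1 | h1
  · have h2 : 0 < w q := by
      by_contra h3
      have := mul_nonneg_of_nonpos_of_nonpos h1.le (not_lt.1 h3)
      linarith
    have h3 : z q - w q < 0 := by linarith
    exact ⟨div_pos_of_neg_of_neg h1 h3, by rw [div_lt_one_of_neg h3]; linarith⟩
  · rw [h1, zero_mul] at h
    exact absurd h (lt_irrefl _)
  · have h2 : w q < 0 := by
      by_contra h3
      have := mul_nonneg h1.le (not_lt.1 h3)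
      linarith
    have h3 : 0 < z q - w q := by linarith
    exact ⟨div_pos h1 h3, by rw [div_lt_one h3]; linarith⟩

theorem rot_eq {z w : ι → ℝ} {q : ι} (h : z q * w q < 0) (t : ℝ) :
    rot z w t q = (z q - w q) * (tm z w q - t) := by
  have h1 : z q - w q ≠ 0 := by
    intro h2
    have h3 : z q = w q := by linarith
    rw [h3] at h
    nlinarith [mul_self_nonneg (w q)]
  unfold rot tm
  field_simp
  ring

/-- **The sweep.** -/
theorem sweep (Q : Finset ι) (T : ι → ι → Prop) (hT : ∀ p q, T p q → T q p) (z w : ι → ℝ)
    (hz : ∀ q ∈ Q, z q ≠ 0)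
    (hgen : ∀ p ∈ Q, ∀ q ∈ Q, z p * w p < 0 → z q * w q < 0 → tm z w p = tm z w q → p = q)
    (hstep : ∀ a ∈ Q, ∀ t : ℝ, 0 < t → t < 1 → rot z w t a = 0 →
      (∀ q ∈ Q, q ≠ a → rot z w t q ≠ 0) →
      (((Q.erase a).filter fun q => 0 < rot z w t q ∧ T a q).card ≤
        ((Q.erase a).filter fun q => ¬ 0 < rot z w t q ∧ T a q).card + 2) ∧
      (((Q.erase a).filter fun q => ¬ 0 < rot z w t q ∧ T a q).card ≤
        ((Q.erase a).filter fun q => 0 < rot z w t q ∧ T a q).card + 2)) :
    ((Q ×ˢ Q).filter fun c => T c.1 c.2 ∧ z c.1 < 0 ∧ 0 < z c.2).card ≤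
      (Q.filter fun q => 0 ≤ w q).card * Q.card + 2 * Q.card := by
  set Fl := Q.filter fun q => z q * w q < 0 with hFl
  have main : ∀ P : Finset ι, P ⊆ Fl → (∀ p ∈ P, ∀ q ∈ Fl, tm z w q < tm z w p → q ∈ P) →
      sep Q T (sg z w ∅) ≤ sep Q T (sg z w P) + 2 * P.card := by
    intro P
    refine induction_on_max_value (tm z w) P ?_ ?_
    · intro _ _
      simp
    · intro a P haP hmax ih hsub hpre
      have ih' := ih ((subset_insert _ _).trans hsub) (fun q hq r hr hlt => by
        have h1 := hpre q (mem_insert_of_mem hq) r hr hlt
        rw [mem_insert] at h1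
        rcases h1 with h1 | h1
        · subst h1
          exact absurd hlt (not_lt.2 (hmax q hq))
        · exact h1)
      have haF : a ∈ Fl := hsub (mem_insert_self _ _)
      have haQ : a ∈ Q := (mem_filter.1 haF).1
      have hza : z a * w a < 0 := (mem_filter.1 haF).2
      obtain ⟨ht0, ht1⟩ := tm_mem hza
      have hrot : ∀ q ∈ Q, q ≠ a → (0 < rot z w (tm z w a) q ↔ sg z w P q) ∧
          rot z w (tm z w a) q ≠ 0 := by
        intro q hq hqa
        by_cases hf : z q * w q < 0
        · have hqF : q ∈ Fl := mem_filter.2 ⟨hq, hf⟩
          rw [rot_eq hf]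
          have hne : tm z w q ≠ tm z w a := fun h => hqa (hgen q hq a haQ hf hza h)
          have hzw : z q - w q ≠ 0 := by
            intro h2
            have h3 : z q = w q := by linarith
            rw [h3] at hf
            nlinarith [mul_self_nonneg (w q)]
          refine ⟨?_, mul_ne_zero hzw (sub_ne_zero.2 hne)⟩
          by_cases hqP : q ∈ P
          · have h1 : tm z w q < tm z w a := lt_of_le_of_ne (hmax q hqP) hne
            have h2 : sg z w P q ↔ 0 < w q := by
              unfold sg
              simp [hqP]
            rw [h2]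
            constructor
            · intro h
              by_contra h3
              have h4 : 0 < z q := by
                by_contra h5
                have := mul_nonneg_of_nonpos_of_nonpos (not_lt.1 h5) (not_lt.1 h3)
                linarith
              have : (z q - w q) * (tm z w q - tm z w a) ≤ 0 :=
                mul_nonpos_of_nonneg_of_nonpos (by linarith) (by linarith)
              linarith
            · intro h
              have h4 : z q < 0 := by
                by_contra h5
                have := mul_nonneg (not_lt.1 h5) h.le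
                linarith
              exact mul_pos_of_neg_of_neg (by linarith) (by linarith)
          · have h1 : tm z w a < tm z w q := by
              rcases lt_or_gt_of_ne hne with h2 | h2
              · exact absurd (by
                  have h3 := hpre a (mem_insert_self _ _) q hqF h2
                  rw [mem_insert] at h3
                  exact h3.resolve_left hqa) hqP
              · exact h2
            have h2 : sg z w P q ↔ 0 < z q := by
              unfold sg
              simp [hqP]
            rw [h2]
            constructor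
            · intro h
              by_contra h3
              have h4 : 0 < w q := by
                by_contra h5
                have := mul_nonneg_of_nonpos_of_nonpos (not_lt.1 h3) (not_lt.1 h5)
                linarith
              have : (z q - w q) * (tm z w q - tm z w a) ≤ 0 :=
                mul_nonpos_of_nonpos_of_nonneg (by linarith) (by linarith)
              linarith
            · intro h
              have h4 : w q < 0 := by
                by_contra h5
                have := mul_nonneg h.le (not_lt.1 h5)
                linarith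
              exact mul_pos (by linarith) (by linarith)
        · have hqP : q ∉ P := fun h => hf (mem_filter.1 (hsub (mem_insert_of_mem h))).2
          have h2 : sg z w P q ↔ 0 < z q := by
            unfold sg
            simp [hqP]
          rw [h2]
          unfold rot
          rcases lt_or_gt_of_ne (hz q hq) with h3 | h3
          · have h4 : w q ≤ 0 := by
              by_contra h5
              exact hf (mul_neg_of_neg_of_pos h3 (not_le.1 h5))
            have h5 : (1 - tm z w a) * z q < 0 := mul_neg_of_pos_of_neg (by linarith) h3
            have h6 : tm z w a * w q ≤ 0 := mul_nonpos_of_nonneg_of_nonpos ht0.le h4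
            refine ⟨⟨fun h => absurd h (not_lt.2 (by linarith)), fun h => absurd h
              (not_lt.2 h3.le)⟩, (by linarith : (1 - tm z w a) * z q + tm z w a * w q < 0).ne⟩
          · have h4 : 0 ≤ w q := by
              by_contra h5
              exact hf (mul_neg_of_pos_of_neg h3 (not_le.1 h5))
            have h5 : 0 < (1 - tm z w a) * z q := mul_pos (by linarith) h3
            have h6 : 0 ≤ tm z w a * w q := mul_nonneg ht0.le h4
            exact ⟨⟨fun _ => h3, fun _ => by linarith⟩,
              (by linarith : 0 < (1 - tm z w a) * z q + tm z w a * w q).ne'⟩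
      have hst := hstep a haQ (tm z w a) ht0 ht1 (by rw [rot_eq hza, sub_self, mul_zero])
        (fun q hq hqa => (hrot q hq hqa).2)
      have e1 : ((Q.erase a).filter fun q => 0 < rot z w (tm z w a) q ∧ T a q) =
          (Q.erase a).filter fun q => sg z w P q ∧ T a q := by
        apply filter_congr
        intro q hq
        rw [mem_erase] at hq
        rw [(hrot q hq.2 hq.1).1]
      have e2 : ((Q.erase a).filter fun q => ¬ 0 < rot z w (tm z w a) q ∧ T a q) =
          (Q.erase a).filter fun q => ¬ sg z w P q ∧ T a q := by
        apply filter_congr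
        intro q hq
        rw [mem_erase] at hq
        rw [(hrot q hq.2 hq.1).1]
      rw [e1, e2] at hst
      have hsame : ∀ q, q ≠ a → (sg z w (insert a P) q ↔ sg z w P q) := by
        intro q hq
        unfold sg
        simp [hq]
      have e3 : sep (Q.erase a) T (sg z w (insert a P)) = sep (Q.erase a) T (sg z w P) := by
        unfold sep
        congr 1
        apply filter_congr
        rintro ⟨c, d⟩ hc
        simp only [mem_product, mem_erase] at hc
        rw [hsame c hc.1.1, hsame d hc.2.1]
      have h1 := sep_split Q T hT (sg z w P) haQ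
      have h2 := sep_split Q T hT (sg z w (insert a P)) haQ
      have h3 : sepAt Q T (sg z w P) a ≤ sepAt Q T (sg z w (insert a P)) a + 2 := by
        have hPa : sg z w P a ↔ 0 < z a := by
          unfold sg
          simp [haP]
        have hIa : sg z w (insert a P) a ↔ 0 < w a := by
          unfold sg
          simp
        unfold sepAt
        rcases lt_or_gt_of_ne (hz a haQ) with h4 | h4
        · have h5 : 0 < w a := by
            by_contra h6
            have := mul_nonneg_of_nonpos_of_nonpos h4.le (not_lt.1 h6)
            linarith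
          have h6 : ((Q.erase a).filter fun q => T a q ∧ (sg z w P a ↔ ¬ sg z w P q)) =
              (Q.erase a).filter fun q => sg z w P q ∧ T a q := by
            apply filter_congr
            intro q hq
            have : ¬ sg z w P a := by
              rw [hPa]
              exact not_lt.2 h4.le
            exact pr1 this
          have h7 : ((Q.erase a).filter fun q => T a q ∧
              (sg z w (insert a P) a ↔ ¬ sg z w (insert a P) q)) =
              (Q.erase a).filter fun q => ¬ sg z w P q ∧ T a q := by
            apply filter_congr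
            intro q hq
            rw [mem_erase] at hq
            have h8 : sg z w (insert a P) a := hIa.2 h5
            rw [hsame q hq.1]
            exact pr2 h8
          rw [h6, h7]
          exact hst.1
        · have h5 : w a < 0 := by
            by_contra h6
            have := mul_nonneg h4.le (not_lt.1 h6)
            linarith
          have h6 : ((Q.erase a).filter fun q => T a q ∧ (sg z w P a ↔ ¬ sg z w P q)) =
              (Q.erase a).filter fun q => ¬ sg z w P q ∧ T a q := by
            apply filter_congr
            intro q hq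
            have : sg z w P a := hPa.2 h4
            exact pr2 this
          have h7 : ((Q.erase a).filter fun q => T a q ∧
              (sg z w (insert a P) a ↔ ¬ sg z w (insert a P) q)) =
              (Q.erase a).filter fun q => sg z w P q ∧ T a q := by
            apply filter_congr
            intro q hq
            rw [mem_erase] at hq
            have h8 : ¬ sg z w (insert a P) a := by
              rw [hIa]
              exact not_lt.2 h5.le
            rw [hsame q hq.1]
            exact pr1 h8
          rw [h6, h7]
          exact hst.2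
      rw [card_insert_of_notMem haP]
      omega
  have h1 := main Fl Subset.rfl (fun _ _ q hq _ => hq)
  have h2 : ((Q ×ˢ Q).filter fun c => T c.1 c.2 ∧ z c.1 < 0 ∧ 0 < z c.2).card ≤
      sep Q T (sg z w ∅) := by
    unfold sep
    apply card_le_card
    intro c hc
    rw [mem_filter] at hc ⊢
    refine ⟨hc.1, hc.2.1, ?_, ?_⟩
    · unfold sg
      simp [hc.2.2.1.le]
    · unfold sg
      simp [hc.2.2.2]
  have h3 : sep Q T (sg z w Fl) ≤ (Q.filter fun q => 0 ≤ w q).card * Q.card := by
    unfold sep
    calc ((Q ×ˢ Q).filter fun c => T c.1 c.2 ∧ ¬ sg z w Fl c.1 ∧ sg z w Fl c.2).card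
        ≤ (Q ×ˢ (Q.filter fun q => 0 ≤ w q)).card := by
          apply card_le_card
          rintro ⟨c, d⟩ hc
          simp only [mem_filter, mem_product] at hc ⊢
          refine ⟨hc.1.1, hc.1.2, ?_⟩
          rcases hc.2.2.2 with ⟨_, h4⟩ | ⟨h4, h5⟩
          · exact h4.le
          · by_contra h6
            exact h4 (mem_filter.2 ⟨hc.1.2, mul_neg_of_pos_of_neg h5 (not_le.1 h6)⟩)
      _ = _ := by rw [card_product, mul_comm]
  have h4 : Fl.card ≤ Q.card := card_filter_le _ _
  omega

end Pool.Agent.HpD
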