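import Pool.Agent.HpD.Det
import Pool.Agent.HpD.Sweep

/-!
# Triangles counted at their middle vertex
-/

namespace Pool.Agent.HpD

open Finset Classical SmH

variable {n : ℕ}

theorem dt_swap (x : Fin n × Fin 3 → ℝ) (b p q r : Fin n) : dt x b q p r = -dt x b p q r := by
  unfold dt det3
  ring

theorem Ty_symm {x : Fin n × Fin 3 → ℝ} {k : ℕ} {b p q : Fin n} (h : Ty x k b p q) :
    Ty x k b q p := by
  have h1 : (univ.filter fun r => 0 < dt x b q p r) = univ.filter fun r => dt x b p q r < 0 := by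
    apply filter_congr
    intro r _
    rw [dt_swap]
    constructor <;> intro h <;> linarith
  have h2 : (univ.filter fun r => dt x b q p r < 0) = univ.filter fun r => 0 < dt x b p q r := by
    apply filter_congr
    intro r _
    rw [dt_swap]
    constructor <;> intro h <;> linarith
  unfold Ty at h ⊢
  rw [h1, h2]
  exact h.symm

theorem link_bound {x : Fin n × Fin 3 → ℝ} (hx : GenPos x) (b : Fin n) (z w : Fin 3 → ℝ) (k : ℕ)
    (hz : ∀ q, q ≠ b → dot z (df x b q) ≠ 0)
    (hgen : ∀ p q, p ≠ b → q ≠ b → p ≠ q → dot w (df x b p) ≠ 0 →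
      dot z (df x b p) * dot w (df x b q) - dot z (df x b q) * dot w (df x b p) ≠ 0) :
    (((univ.erase b) ×ˢ (univ.erase b)).filter fun c : Fin n × Fin n =>
      Ty x k b c.1 c.2 ∧ dot z (df x b c.1) < 0 ∧ 0 < dot z (df x b c.2)).card ≤
      ((univ.erase b).filter fun q => 0 ≤ dot w (df x b q)).card * (univ.erase b).card +
        2 * (univ.erase b).card := by
  refine sweep (univ.erase b) (Ty x k b) (fun p q h => Ty_symm h) (fun q => dot z (df x b q))
    (fun q => dot w (df x b q)) ?_ ?_ ?_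
  · intro q hq
    exact hz q (ne_of_mem_erase hq)
  · intro p hp q hq h1 h2 h3
    by_contra hpq
    have hp' := ne_of_mem_erase hp
    have hq' := ne_of_mem_erase hq
    have hw : dot w (df x b p) ≠ 0 := by
      intro h4
      rw [h4, mul_zero] at h1
      exact lt_irrefl _ h1
    refine hgen p q hp' hq' hpq hw ?_
    unfold tm at h3
    have d1 : dot z (df x b p) - dot w (df x b p) ≠ 0 := by
      intro h4
      have h5 : dot z (df x b p) = dot w (df x b p) := by linarith
      rw [h5] at h1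
      nlinarith [mul_self_nonneg (dot w (df x b p))]
    have d2 : dot z (df x b q) - dot w (df x b q) ≠ 0 := by
      intro h4
      have h5 : dot z (df x b q) = dot w (df x b q) := by linarith
      rw [h5] at h2
      nlinarith [mul_self_nonneg (dot w (df x b q))]
    rw [div_eq_div_iff d1 d2] at h3
    linear_combination -h3
  · intro a ha t ht0 ht1 hra hrq
    have hab := ne_of_mem_erase ha
    have hdot : ∀ q, dot (fun c => (1 - t) * z c + t * w c) (df x b q) =
        rot (fun q => dot z (df x b q)) (fun q => dot w (df x b q)) t q := by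
      intro q
      unfold rot dot
      ring
    have h1 := alt hx hab (fun c => (1 - t) * z c + t * w c) (by rw [hdot]; exact hra)
      (fun q hqb hqa => by
        rw [hdot]
        exact hrq q (mem_erase.2 ⟨hqb, mem_univ _⟩) hqa) k
    have h2 : ∀ i : DecidableEq (Fin n), others b a =
        @Finset.erase _ i (@Finset.erase _ (instDecidableEqFin n) univ b) a := by
      intro i
      ext q
      simp [others, and_comm]
    rw [h2 (fun c d => Classical.propDecidable (c = d))] at h1
    simp only [hdot] at h1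
    exact h1

/-- a functional which does not vanish on finitely many given nonzero vectors -/
theorem exists_functional (Y : Finset (Fin 3 → ℝ)) (hY : ∀ y ∈ Y, y ≠ 0) :
    ∃ z : Fin 3 → ℝ, ∀ y ∈ Y, dot z y ≠ 0 := by
  let f : (Fin 3 → ℝ) → Polynomial ℝ := fun y =>
    Polynomial.C (y 0) + Polynomial.C (y 1) * Polynomial.X + Polynomial.C (y 2) * Polynomial.X ^ 2
  have hf : ∀ y ∈ Y, f y ≠ 0 := by
    intro y hy h
    apply hY y hy
    have h0 := congrArg (fun p => Polynomial.coeff p 0) h
    have h1 := congrArg (fun p => Polynomial.coeff p 1) h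
    have h2 := congrArg (fun p => Polynomial.coeff p 2) h
    simp [f, Polynomial.coeff_X, Polynomial.coeff_C, Polynomial.coeff_X_pow] at h0 h1 h2
    funext c
    fin_cases c
    · exact h0
    · exact h1
    · exact h2
  have hprod : ∏ y ∈ Y, f y ≠ 0 := Finset.prod_ne_zero_iff.2 hf
  obtain ⟨s, hs⟩ : ∃ s : ℝ, Polynomial.eval s (∏ y ∈ Y, f y) ≠ 0 := by
    by_contra h
    push Not at h
    exact hprod (Polynomial.funext fun r => by rw [h r, Polynomial.eval_zero])
  rw [Polynomial.eval_prod] at hs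
  refine ⟨![1, s, s ^ 2], fun y hy h => ?_⟩
  have h1 := Finset.prod_ne_zero_iff.1 hs y hy
  apply h1
  simp only [f, Polynomial.eval_add, Polynomial.eval_C, Polynomial.eval_mul, Polynomial.eval_X,
    Polynomial.eval_pow]
  unfold dot at h
  simp only [Matrix.cons_val_zero, Matrix.cons_val_one, Matrix.cons_val] at h
  linear_combination h

theorem exists_fourth (hn : 4 ≤ n) (a b c : Fin n) : ∃ d, d ≠ a ∧ d ≠ b ∧ d ≠ c := by
  by_contra h
  push Not at h
  have h1 : (univ : Finset (Fin n)) ⊆ {a, b, c} := by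
    intro d _
    simp only [mem_insert, mem_singleton]
    by_cases h2 : d = a
    · exact Or.inl h2
    by_cases h3 : d = b
    · exact Or.inr (Or.inl h3)
    exact Or.inr (Or.inr (h d h2 h3))
  have h2 := card_le_card h1
  rw [card_univ, Fintype.card_fin] at h2
  have h3 := card_le_three (a := a) (b := b) (c := c)
  omega

/-- no three points on a line, and the points are distinct -/
theorem comb_ne {x : Fin n × Fin 3 → ℝ} (hx : GenPos x) (hn : 4 ≤ n) {b p q : Fin n} (hpb : p ≠ b)
    (hqb : q ≠ b) (hpq : p ≠ q) {α β : ℝ} (h : α ≠ 0 ∨ β ≠ 0) :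
    (fun c => α * df x b p c + β * df x b q c) ≠ 0 := by
  intro h0
  obtain ⟨r, h1, h2, h3⟩ := exists_fourth hn b p q
  have hd := dt_ne hx hpb.symm hqb.symm h1.symm hpq h2.symm h3.symm
  have e : ∀ c, α * df x b p c + β * df x b q c = 0 := fun c => congrFun h0 c
  rcases h with h | h
  · apply hd
    have : α * dt x b p q r = 0 := by
      unfold dt det3
      linear_combination (df x b q 1 * df x b r 2 - df x b q 2 * df x b r 1) * e 0 -
        (df x b q 0 * df x b r 2 - df x b q 2 * df x b r 0) * e 1 +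
        (df x b q 0 * df x b r 1 - df x b q 1 * df x b r 0) * e 2
    exact (mul_eq_zero.1 this).resolve_left h
  · apply hd
    have : β * dt x b p q r = 0 := by
      unfold dt det3
      linear_combination -(df x b p 1 * df x b r 2 - df x b p 2 * df x b r 1) * e 0 +
        (df x b p 0 * df x b r 2 - df x b p 2 * df x b r 0) * e 1 -
        (df x b p 0 * df x b r 1 - df x b p 1 * df x b r 0) * e 2
    exact (mul_eq_zero.1 this).resolve_left h

theorem df_ne {x : Fin n × Fin 3 → ℝ} (hx : GenPos x) (hn : 4 ≤ n) {b p : Fin n} (hpb : p ≠ b) :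
    df x b p ≠ 0 := by
  obtain ⟨q, h1, h2, _⟩ := exists_fourth hn b p p
  have := comb_ne hx hn hpb h1 h2.symm (α := 1) (β := 0) (Or.inl one_ne_zero)
  intro h
  apply this
  rw [h]
  funext c
  simp

/-- a functional in general position with respect to the configuration and given functionals -/
theorem exists_generic {x : Fin n × Fin 3 → ℝ} (hx : GenPos x) (hn : 4 ≤ n)
    (w : Fin n → Fin 3 → ℝ) : ∃ z : Fin 3 → ℝ, ∀ b : Fin n,
      (∀ q, q ≠ b → dot z (df x b q) ≠ 0) ∧
      (∀ p q, p ≠ b → q ≠ b → p ≠ q → dot (w b) (df x b p) ≠ 0 →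
        dot z (df x b p) * dot (w b) (df x b q) - dot z (df x b q) * dot (w b) (df x b p) ≠ 0) := by
  let Y1 : Finset (Fin 3 → ℝ) := (univ.filter fun c : Fin n × Fin n => c.2 ≠ c.1).image
    fun c => df x c.1 c.2
  let g : Fin n × Fin n × Fin n → Fin 3 → ℝ := fun c i =>
    dot (w c.1) (df x c.1 c.2.2) * df x c.1 c.2.1 i +
      (-dot (w c.1) (df x c.1 c.2.1)) * df x c.1 c.2.2 i
  let Y2 : Finset (Fin 3 → ℝ) := (univ.filter fun c : Fin n × Fin n × Fin n =>
    c.2.1 ≠ c.1 ∧ c.2.2 ≠ c.1 ∧ c.2.1 ≠ c.2.2 ∧ dot (w c.1) (df x c.1 c.2.1) ≠ 0).image g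
  obtain ⟨z, hz⟩ := exists_functional (Y1 ∪ Y2) (by
    intro y hy
    rw [mem_union] at hy
    rcases hy with hy | hy
    · obtain ⟨c, hc, rfl⟩ := mem_image.1 hy
      exact df_ne hx hn (mem_filter.1 hc).2
    · obtain ⟨c, hc, rfl⟩ := mem_image.1 hy
      obtain ⟨_, h1, h2, h3, h4⟩ := mem_filter.1 hc
      exact comb_ne hx hn h1 h2 h3 (Or.inr (neg_ne_zero.2 h4)))
  refine ⟨z, fun b => ⟨fun q hq => ?_, fun p q hp hq hpq hw => ?_⟩⟩
  · exact hz _ (mem_union_left _ (mem_image.2 ⟨(b, q), mem_filter.2 ⟨mem_univ _, hq⟩, rfl⟩))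
  · have h1 := hz _ (mem_union_right _ (mem_image.2 ⟨(b, p, q),
      mem_filter.2 ⟨mem_univ _, hp, hq, hpq, hw⟩, rfl⟩))
    intro h2
    apply h1
    simp only [g]
    unfold dot at h2 ⊢
    linear_combination h2

/-- The triples, ordered by the functional `z`, whose plane has exactly `k` points on one side. -/
noncomputable def tri (x : Fin n × Fin 3 → ℝ) (z : Fin 3 → ℝ) (k : ℕ) :
    Finset (Fin n × Fin n × Fin n) :=
  univ.filter fun c => ev z x c.2.1 < ev z x c.1 ∧ ev z x c.1 < ev z x c.2.2 ∧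
    Ty x k c.1 c.2.1 c.2.2

theorem tri_card_le {x : Fin n × Fin 3 → ℝ} (hx : GenPos x) (z : Fin 3 → ℝ)
    (w : Fin n → Fin 3 → ℝ) (hz : ∀ b : Fin n, (∀ q, q ≠ b → dot z (df x b q) ≠ 0) ∧
      (∀ p q, p ≠ b → q ≠ b → p ≠ q → dot (w b) (df x b p) ≠ 0 →
        dot z (df x b p) * dot (w b) (df x b q) - dot z (df x b q) * dot (w b) (df x b p) ≠ 0))
    (k : ℕ) : (tri x z k).card ≤ n * ∑ b : Fin n,
      (((univ.erase b).filter fun q => 0 ≤ dot (w b) (df x b q)).card + 2) := by
  have h1 : (tri x z k).card = ∑ b : Fin n,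
      (((univ.erase b) ×ˢ (univ.erase b)).filter fun c : Fin n × Fin n =>
      Ty x k b c.1 c.2 ∧ dot z (df x b c.1) < 0 ∧ 0 < dot z (df x b c.2)).card := by
    rw [← card_sigma]
    refine card_bij' (fun c _ => ⟨c.1, c.2⟩) (fun c _ => (c.1, c.2)) ?_ ?_ ?_ ?_
    · rintro ⟨b, p, q⟩ h
      rw [tri, mem_filter] at h
      obtain ⟨_, h2, h3, h4⟩ := h
      rw [mem_sigma]
      refine ⟨mem_univ _, ?_⟩
      rw [mem_filter, mem_product]
      refine ⟨⟨mem_erase.2 ⟨?_, mem_univ _⟩, mem_erase.2 ⟨?_, mem_univ _⟩⟩, h4, ?_, ?_⟩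
      · intro h5
        change p = b at h5
        rw [h5] at h2
        exact lt_irrefl _ h2
      · intro h5
        change q = b at h5
        rw [h5] at h3
        exact lt_irrefl _ h3
      · rw [dot_df]
        exact sub_neg.2 h2
      · rw [dot_df]
        exact sub_pos.2 h3
    · rintro ⟨b, p, q⟩ h
      rw [mem_sigma, mem_filter] at h
      obtain ⟨_, _, h4, h2, h3⟩ := h
      rw [dot_df] at h2 h3
      rw [tri, mem_filter]
      exact ⟨mem_univ _, sub_neg.1 h2, sub_pos.1 h3, h4⟩
    · rintro ⟨b, p, q⟩ _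
      rfl
    · rintro ⟨b, p, q⟩ _
      rfl
  rw [h1, mul_sum]
  apply sum_le_sum
  intro b _
  have h2 := link_bound hx b z (w b) k (hz b).1 (hz b).2
  have h3 : (univ.erase b : Finset (Fin n)).card ≤ n := by
    calc _ ≤ (univ : Finset (Fin n)).card := card_le_card (erase_subset _ _)
      _ = n := by rw [card_univ, Fintype.card_fin]
  calc _ ≤ _ := h2
    _ = (univ.erase b : Finset (Fin n)).card *
        (((univ.erase b).filter fun q => 0 ≤ dot (w b) (df x b q)).card + 2) := by ring
    _ ≤ _ := Nat.mul_le_mul_right _ h3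

end Pool.Agent.HpD
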