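import Mathlib

/-!
# The alternation of up-steps and down-steps of a walk through a fixed level

`Q` is a finite set of directions with slopes `s`, those with `e` point to the right, the others to
the left. `mu Q s e q` is the number of directions on one side of the line with slope `s q`.
-/

namespace Pool.Agent.HpD

open Finset Classical

variable {ι : Type*}

/-- The number of directions on one side of the line of `q`. -/
noncomputable def mu (Q : Finset ι) (s : ι → ℝ) (e : ι → Prop) (q : ι) : ℕ :=
  (Q.filter fun r => s q < s r ∧ e r).card + (Q.filter fun r => s r < s q ∧ ¬ e r).card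

/-- The number of directions on one side of a line whose slope lies above the slopes of `P` and
below the slopes of the other directions. -/
noncomputable def lev (Q : Finset ι) (e : ι → Prop) (P : Finset ι) : ℕ :=
  ((Q \ P).filter e).card + (P.filter fun r => ¬ e r).card

theorem mu_eq {Q : Finset ι} {s : ι → ℝ} (hs : Set.InjOn s Q) (e : ι → Prop) {a : ι}
    {P : Finset ι} (haP : a ∉ P) (hPQ : insert a P ⊆ Q) (hmax : ∀ x ∈ P, s x ≤ s a)
    (hpre : ∀ q ∈ insert a P, ∀ r ∈ Q, s r < s q → r ∈ insert a P) :
    mu Q s e a = ((Q \ insert a P).filter e).card + (P.filter fun r => ¬ e r).card := by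
  have haQ : a ∈ Q := hPQ (mem_insert_self _ _)
  have h1 : (Q.filter fun r => s a < s r ∧ e r) = (Q \ insert a P).filter e := by
    ext r
    simp only [mem_filter, mem_sdiff, mem_insert, not_or]
    constructor
    · rintro ⟨h1, h2, h3⟩
      refine ⟨⟨h1, ?_, ?_⟩, h3⟩
      · rintro rfl
        exact lt_irrefl _ h2
      · intro h4
        exact absurd h2 (not_lt.2 (hmax r h4))
    · rintro ⟨⟨h1, h2, h3⟩, h4⟩
      refine ⟨h1, ?_, h4⟩
      rcases lt_trichotomy (s a) (s r) with h5 | h5 | h5
      · exact h5
      · exact absurd (hs haQ h1 h5).symm h2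
      · have := hpre a (mem_insert_self _ _) r h1 h5
        rw [mem_insert] at this
        rcases this with h6 | h6
        · exact absurd h6 h2
        · exact absurd h6 h3
  have h2 : (Q.filter fun r => s r < s a ∧ ¬ e r) = P.filter fun r => ¬ e r := by
    ext r
    simp only [mem_filter]
    constructor
    · rintro ⟨h1, h2, h3⟩
      have := hpre a (mem_insert_self _ _) r h1 h2
      rw [mem_insert] at this
      rcases this with h6 | h6
      · subst h6
        exact absurd h2 (lt_irrefl _)
      · exact ⟨h6, h3⟩
    · rintro ⟨h1, h2⟩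
      have h3 : r ∈ Q := hPQ (mem_insert_of_mem h1)
      refine ⟨h3, lt_of_le_of_ne (hmax r h1) ?_, h2⟩
      intro h4
      have h5 : r = a := hs h3 haQ h4
      rw [h5] at h1
      exact haP h1
  rw [mu, h1, h2]

theorem walk_aux {Q : Finset ι} {s : ι → ℝ} (hs : Set.InjOn s Q) (e : ι → Prop) (u : ℕ)
    (P : Finset ι) : P ⊆ Q → (∀ q ∈ P, ∀ r ∈ Q, s r < s q → r ∈ P) →
    ((P.filter fun q => ¬ e q ∧ mu Q s e q = u).card : ℤ) -
      (P.filter fun q => e q ∧ mu Q s e q = u).card =
      (if u < lev Q e P then 1 else 0) - (if u < lev Q e ∅ then 1 else 0) := by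
  refine induction_on_max_value s P ?_ ?_
  · intro _ _
    simp
  · intro a P haP hmax ih hsub hpre
    have ih' := ih ((subset_insert _ _).trans hsub) (fun q hq r hr hlt => by
      have h1 := hpre q (mem_insert_of_mem hq) r hr hlt
      rw [mem_insert] at h1
      rcases h1 with h1 | h1
      · subst h1
        exact absurd hlt (not_lt.2 (hmax q hq))
      · exact h1)
    have hmu := mu_eq hs e haP hsub hmax hpre
    have haQ : a ∈ Q := hsub (mem_insert_self _ _)
    have hQ : Q \ P = insert a (Q \ insert a P) := by
      ext r
      simp only [mem_sdiff, mem_insert, not_or]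
      constructor
      · rintro ⟨h1, h2⟩
        by_cases h3 : r = a
        · exact Or.inl h3
        · exact Or.inr ⟨h1, h3, h2⟩
      · rintro (h1 | ⟨h1, h2, h3⟩)
        · subst h1
          exact ⟨haQ, haP⟩
        · exact ⟨h1, h3⟩
    have hna : a ∉ Q \ insert a P := by simp
    by_cases he : e a
    · have h1 : lev Q e P = mu Q s e a + 1 := by
        rw [lev, hQ, filter_insert, if_pos he, card_insert_of_notMem (by simp), hmu]
        omega
      have h2 : lev Q e (insert a P) = mu Q s e a := by
        rw [lev, filter_insert, if_neg (not_not.2 he), hmu]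
      have h3 : ((insert a P).filter fun q => ¬ e q ∧ mu Q s e q = u) =
          P.filter fun q => ¬ e q ∧ mu Q s e q = u := by
        rw [filter_insert, if_neg (fun h => h.1 he)]
      by_cases hu : mu Q s e a = u
      · have h4 : ((insert a P).filter fun q => e q ∧ mu Q s e q = u).card =
            (P.filter fun q => e q ∧ mu Q s e q = u).card + 1 := by
          rw [filter_insert, if_pos ⟨he, hu⟩, card_insert_of_notMem (by simp [haP])]
        rw [h3, h4, h2]
        rw [h1] at ih'
        rw [if_pos (by omega)] at ih'
        rw [if_neg (by omega)]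
        push_cast
        linarith
      · have h4 : ((insert a P).filter fun q => e q ∧ mu Q s e q = u) =
            (P.filter fun q => e q ∧ mu Q s e q = u) := by
          rw [filter_insert, if_neg (fun h => hu h.2)]
        rw [h3, h4, h2, ih', h1]
        congr 1
        by_cases h5 : u < mu Q s e a
        · rw [if_pos h5, if_pos (by omega)]
        · rw [if_neg h5, if_neg (by omega)]
    · have h1 : lev Q e P = mu Q s e a := by
        rw [lev, hQ, filter_insert, if_neg he, hmu]
      have h2 : lev Q e (insert a P) = mu Q s e a + 1 := by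
        rw [lev, filter_insert, if_pos he, card_insert_of_notMem (by simp [haP]), hmu]
        omega
      have h3 : ((insert a P).filter fun q => e q ∧ mu Q s e q = u) =
          P.filter fun q => e q ∧ mu Q s e q = u := by
        rw [filter_insert, if_neg (fun h => he h.1)]
      by_cases hu : mu Q s e a = u
      · have h4 : ((insert a P).filter fun q => ¬ e q ∧ mu Q s e q = u).card =
            (P.filter fun q => ¬ e q ∧ mu Q s e q = u).card + 1 := by
          rw [filter_insert, if_pos ⟨he, hu⟩, card_insert_of_notMem (by simp [haP])]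
        rw [h3, h4, h2]
        rw [h1] at ih'
        rw [if_neg (by omega)] at ih'
        rw [if_pos (by omega)]
        push_cast
        linarith
      · have h4 : ((insert a P).filter fun q => ¬ e q ∧ mu Q s e q = u) =
            (P.filter fun q => ¬ e q ∧ mu Q s e q = u) := by
          rw [filter_insert, if_neg (fun h => hu h.2)]
        rw [h3, h4, h2, ih', h1]
        congr 1
        by_cases h5 : u < mu Q s e a
        · rw [if_pos h5, if_pos (by omega)]
        · rw [if_neg h5, if_neg (by omega)]

/-- **Alternation.** The directions to the right at level `u` and those to the left at level `u`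
differ in number by at most one. -/
theorem walk {Q : Finset ι} {s : ι → ℝ} (hs : Set.InjOn s Q) (e : ι → Prop) (u : ℕ) :
    (Q.filter fun q => e q ∧ mu Q s e q = u).card ≤
      (Q.filter fun q => ¬ e q ∧ mu Q s e q = u).card + 1 ∧
    (Q.filter fun q => ¬ e q ∧ mu Q s e q = u).card ≤
      (Q.filter fun q => e q ∧ mu Q s e q = u).card + 1 := by
  have h := walk_aux hs e u Q Subset.rfl (fun _ _ r hr _ => hr)
  constructor
  · split_ifs at h <;> omega
  · split_ifs at h <;> omega

theorem mu_lt {Q : Finset ι} {s : ι → ℝ} (e : ι → Prop) {q : ι} (hq : q ∈ Q) :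
    mu Q s e q < Q.card := by
  have h1 : mu Q s e q = ((Q.filter fun r => s q < s r ∧ e r) ∪
      (Q.filter fun r => s r < s q ∧ ¬ e r)).card := by
    rw [card_union_of_disjoint, mu]
    rw [disjoint_left]
    intro r h1 h2
    rw [mem_filter] at h1 h2
    exact h2.2.2 h1.2.2
  rw [h1]
  apply card_lt_card
  rw [ssubset_iff_of_subset]
  · refine ⟨q, hq, ?_⟩
    simp
  · intro r
    simp only [mem_union, mem_filter]
    rintro (h | h) <;> exact h.1

/-- the same for two complementary levels together -/
theorem walk_two {Q : Finset ι} {s : ι → ℝ} (hs : Set.InjOn s Q) (e : ι → Prop) (u : ℕ) :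
    (Q.filter fun q => e q ∧ (mu Q s e q = u ∨ Q.card - 1 - mu Q s e q = u)).card ≤
      (Q.filter fun q => ¬ e q ∧ (mu Q s e q = u ∨ Q.card - 1 - mu Q s e q = u)).card + 2 ∧
    (Q.filter fun q => ¬ e q ∧ (mu Q s e q = u ∨ Q.card - 1 - mu Q s e q = u)).card ≤
      (Q.filter fun q => e q ∧ (mu Q s e q = u ∨ Q.card - 1 - mu Q s e q = u)).card + 2 := by
  have key : ∀ (f : ι → Prop) [DecidablePred f], (Q.filter fun q => f q ∧ (mu Q s e q = u ∨
      Q.card - 1 - mu Q s e q = u)).card =
      (Q.filter fun q => f q ∧ mu Q s e q = u).card + if 2 * u = Q.card - 1 ∨ Q.card ≤ u then 0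
        else (Q.filter fun q => f q ∧ mu Q s e q = Q.card - 1 - u).card := by
    intro f _
    split_ifs with h
    · rw [add_zero]
      congr 1
      apply filter_congr
      intro q hq
      have := mu_lt (s := s) e hq
      constructor
      · rintro ⟨h1, h2⟩
        exact ⟨h1, by omega⟩
      · rintro ⟨h1, h2⟩
        exact ⟨h1, Or.inl h2⟩
    · push Not at h
      rw [← card_union_of_disjoint]
      · congr 1
        ext q
        simp only [mem_union, mem_filter]
        constructor
        · rintro ⟨h0, h1, h2⟩
          have := mu_lt (s := s) e h0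
          rcases h2 with h2 | h2
          · exact Or.inl ⟨h0, h1, h2⟩
          · exact Or.inr ⟨h0, h1, by omega⟩
        · rintro (⟨h0, h1, h2⟩ | ⟨h0, h1, h2⟩)
          · exact ⟨h0, h1, Or.inl h2⟩
          · have := mu_lt (s := s) e h0
            exact ⟨h0, h1, Or.inr (by omega)⟩
      · rw [disjoint_left]
        intro q h1 h2
        rw [mem_filter] at h1 h2
        have := mu_lt (s := s) e h1.1
        omega
  have k1 := key e
  have k2 := key (fun q => ¬ e q)
  have k2' : (Q.filter fun q => ¬ e q ∧ (mu Q s e q = u ∨ Q.card - 1 - mu Q s e q = u)).card =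
      (Q.filter fun q => ¬ e q ∧ mu Q s e q = u).card + if 2 * u = Q.card - 1 ∨ Q.card ≤ u then 0
        else (Q.filter fun q => ¬ e q ∧ mu Q s e q = Q.card - 1 - u).card := k2
  rw [k1, k2']
  have h1 := walk hs e u
  have h2 := walk hs e (Q.card - 1 - u)
  split_ifs <;> omega

end Pool.Agent.HpD
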